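import Pool.Agent.Helper33.KD4.WrapDefs

/-! KD project (MP_019250_an), Part IV.8d: room around the points of `Q`. -/

namespace KD.IV

open MeasureTheory Set Filter Topology

namespace Geo

theorem norm_toE_le (d : ℕ) (x : Vd d) : ‖toE d x‖ ≤ d * ‖x‖ := by
  have h1 : ‖toE d x‖ = √(∑ i, ‖x i‖ ^ 2) := by
    rw [EuclideanSpace.norm_eq]
    rfl
  rw [h1]
  apply Real.sqrt_le_iff.2
  refine ⟨by positivity, ?_⟩
  have h2 : ∀ i ∈ Finset.univ, ‖x i‖ ^ 2 ≤ ‖x‖ ^ 2 := fun i _ =>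
    pow_le_pow_left₀ (norm_nonneg _) (norm_le_pi_norm x i) 2
  have h3 := Finset.sum_le_card_nsmul Finset.univ (fun i => ‖x i‖ ^ 2) (‖x‖ ^ 2) h2
  rw [Finset.card_univ, Fintype.card_fin, nsmul_eq_mul] at h3
  refine h3.trans ?_
  have h4 : (d : ℝ) ≤ (d : ℝ) ^ 2 := by
    have : d ≤ d ^ 2 := Nat.le_self_pow (by norm_num) d
    exact_mod_cast this
  calc (d : ℝ) * ‖x‖ ^ 2 ≤ (d : ℝ) ^ 2 * ‖x‖ ^ 2 := mul_le_mul_of_nonneg_right h4 (sq_nonneg _)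
    _ = _ := by ring

end Geo

variable {d : ℕ}

/-- **IV.8d GEO**: room around the points of `Q`. -/
theorem GEO_pf (hd : 1 ≤ d) {s : ℝ} (hs : 0 < s) (hs1 : s < 1) :
    ∃ rr : ℝ, 0 < rr ∧ rr ≤ 1 ∧ ∀ (t0 : ℝ) (x0 v0 : Vd d),
      (t0, toE d x0, toE d v0) ∈ QE d → Q1 d ⊆ trD s rr t0 x0 v0 (DV d) := by
  have hdR : (1 : ℝ) ≤ d := by exact_mod_cast hd
  have hd0 : (0 : ℝ) < d := by linarith
  obtain ⟨rr, hrr0, hrr1, hrr2⟩ : ∃ rr : ℝ, 0 < rr ∧ rr ≤ 1 / (4 * d) ∧ rr ^ (2 * s) ≤ 1 / 2 := by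
    refine ⟨min (1 / (4 * d)) ((1 / 2 : ℝ) ^ (1 / (2 * s))), ?_, min_le_left _ _, ?_⟩
    · exact lt_min (by positivity) (by positivity)
    · calc (min (1 / (4 * (d : ℝ))) ((1 / 2 : ℝ) ^ (1 / (2 * s)))) ^ (2 * s)
          ≤ ((1 / 2 : ℝ) ^ (1 / (2 * s))) ^ (2 * s) := by
            apply Real.rpow_le_rpow _ (min_le_right _ _) (by positivity)
            exact (lt_min (by positivity) (by positivity)).le
        _ = 1 / 2 := by
            rw [← Real.rpow_mul (by norm_num), one_div_mul_cancel (by positivity), Real.rpow_one]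
  have hrrle1 : rr ≤ 1 := by
    refine hrr1.trans ?_
    rw [div_le_one (by positivity)]; linarith
  have hrrd : rr * d ≤ 1 / 4 := by
    have := mul_le_mul_of_nonneg_right hrr1 hd0.le
    refine this.trans (le_of_eq ?_)
    field_simp
  have hp0 : 0 < rr ^ (2 * s) := Real.rpow_pos_of_pos hrr0 _
  have hp1 : rr ^ (1 + 2 * s) = rr * rr ^ (2 * s) := by
    rw [Real.rpow_add hrr0, Real.rpow_one]
  refine ⟨rr, hrr0, hrrle1, ?_⟩
  intro t0 x0 v0 hQ p hp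
  obtain ⟨ht1, ht2, hx, hv⟩ := hQ
  obtain ⟨h1, h2, h3, h4⟩ := hp
  have hx' : ‖toE d x0‖ < 1 / 2 := hx
  have hv' : ‖toE d v0‖ < 1 / 2 := hv
  have ht1' : 1 / 2 < t0 := ht1
  have ht2' : t0 < 1 := ht2
  show 0 < tt s rr t0 p.1 ∧ tt s rr t0 p.1 < 1 ∧ ‖toE d (tx s rr x0 v0 p.1 p.2.1)‖ < 1 ∧
    ‖toE d (tv rr v0 p.2.2)‖ < 1
  have habs : |p.1| ≤ 1 := abs_le.2 ⟨h1, by linarith⟩
  refine ⟨?_, ?_, ?_, ?_⟩
  · unfold tt
    nlinarith
  · unfold tt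
    nlinarith
  · unfold tx
    rw [map_add, map_add, map_smul, map_smul]
    have a1 : ‖(rr ^ (1 + 2 * s)) • toE d p.2.1‖ ≤ 1 / 4 := by
      rw [norm_smul, Real.norm_eq_abs, abs_of_pos (Real.rpow_pos_of_pos hrr0 _), hp1]
      have b1 := Geo.norm_toE_le d p.2.1
      have b2 : ‖toE d p.2.1‖ ≤ d := b1.trans (by nlinarith)
      calc rr * rr ^ (2 * s) * ‖toE d p.2.1‖ ≤ rr * 1 * d := by
            apply mul_le_mul _ b2 (norm_nonneg _) (by positivity)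
            exact mul_le_mul_of_nonneg_left (by linarith) hrr0.le
        _ ≤ 1 / 4 := by linarith
    have a2 : ‖(rr ^ (2 * s) * p.1) • toE d v0‖ ≤ 1 / 4 := by
      rw [norm_smul, Real.norm_eq_abs, abs_mul, abs_of_pos hp0]
      calc rr ^ (2 * s) * |p.1| * ‖toE d v0‖ ≤ 1 / 2 * 1 * (1 / 2) := by
            apply mul_le_mul _ hv'.le (norm_nonneg _) (by positivity)
            exact mul_le_mul hrr2 habs (abs_nonneg _) (by norm_num)
        _ ≤ 1 / 4 := by norm_num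
    calc _ ≤ ‖toE d x0‖ + ‖(rr ^ (1 + 2 * s)) • toE d p.2.1‖ + ‖(rr ^ (2 * s) * p.1) • toE d v0‖ :=
          norm_add₃_le
      _ < 1 := by linarith
  · unfold tv
    rw [map_add, map_smul]
    have a1 : ‖rr • toE d p.2.2‖ ≤ 1 / 4 := by
      rw [norm_smul, Real.norm_eq_abs, abs_of_pos hrr0]
      have b1 := Geo.norm_toE_le d p.2.2
      have b2 : ‖toE d p.2.2‖ ≤ d := b1.trans (by nlinarith)
      exact (mul_le_mul_of_nonneg_left b2 hrr0.le).trans hrrd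
    calc _ ≤ ‖toE d v0‖ + ‖rr • toE d p.2.2‖ := norm_add_le _ _
      _ < 1 := by linarith

end KD.IV
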